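import Pool.Agent.X69.Dio.Fin

/-!
# Diophantine approximation by integers `n` with `n^2+1` almost prime

For an irrational number `α`, every real `β` and every `θ < 11/40` there are infinitely many `n` with
`‖αn + β‖ < n^(-θ)` such that `n^2+1` has at most 3 prime factors; for `θ < 1/3` the same holds with 4 prime factors.
The quantitative form has the right order of magnitude, is uniform in `α` and `β`, and allows further residue classes
to be removed.

Method: the weighted sieve of the starting library (`Pool.Agent.Y882.KW.core4`); the level of distribution `X^(1-θ)` of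
the Bohr set comes from the second Bernoulli function, geometric sums and Vinogradov's lemma (`Pool.Agent.X69.Dio`).
-/

set_option autoImplicit false

namespace Pool.Agent.Results.MP_f1a94e_nt.DiophantineApproximation

open Finset Filter

/-- `n^2+A` has at most `r` prime factors (counted with multiplicity), all of them at least `w` -/
def Few (A : ℤ) (r : ℕ) (w : ℝ) (n : ℕ) : Prop :=
  ((n : ℤ) ^ 2 + A).natAbs.primeFactorsList.length ≤ r ∧
    ∀ p : ℕ, p.Prime → (p : ℤ) ∣ (n : ℤ) ^ 2 + A → w ≤ p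

open Classical in
/-- the number of the residues `u` modulo `p` such that `p` divides `u^2+A` or `u` is in `Ω p` -/
noncomputable def omega (A : ℤ) (Ω : ℕ → Finset ℕ) (p : ℕ) : ℕ :=
  ((range p).filter (fun u : ℕ => (p : ℤ) ∣ (u : ℤ) ^ 2 + A ∨ u ∈ Ω p)).card

open Classical in
/-- Let `-A` be no perfect square (for instance `A = 1`), let `r = 5`, `1/2 ≤ t`, `z = 2t/5`, or `r = 4`,
`269/500 ≤ t`, `z = t/4`, or `r = 3`, `29/40 ≤ t`, `z = t/4`, and let `0 < 2θ < t < 1 - θ` (possible for `r = 3` if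
`θ < 11/40` and for `r = 4`, `5` if `θ < 1/3`).

(1) For every irrational `α` and every real `β` there are infinitely many `n` with `{αn + β} < n^(-θ)` such that
`n^2+A` has at most `r` prime factors, all of them at least `n^z`.

(2) For every `K` and `κ > 0` there are `c, δ > 0` such that for all large `X`, all real `α`, `β`, all coprime `a`, `q`
with `|α - a/q| ≤ 1/q^2` and `X^(θ+κ) ≤ q ≤ X^(1-θ-κ)` and all sets `Ω p` of at most `K` residues for every prime
`p` there are at least `c X^(1-θ) ∏_{p ≤ X} (1 - ω(p)/p)` integers `n ≤ X` with `{αn + β} < X^(-θ)` such that `n^2+A`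
has at most `r` prime factors, all of them at least `X^z`, and `n mod p` is not in `Ω p` for any prime
`p < X^δ`. -/
theorem result (A : ℤ) (hA : ¬ IsSquare (-A)) (r : ℕ) (t z : ℝ)
    (hpar : (r = 5 ∧ 1 / 2 ≤ t ∧ z = 2 / 5 * t) ∨ (r = 4 ∧ 269 / 500 ≤ t ∧ z = t / 4) ∨
      (r = 3 ∧ 29 / 40 ≤ t ∧ z = t / 4)) (θ : ℝ) (hθ : 0 < θ) (hθt : 2 * θ < t) (htθ : t < 1 - θ) :
    (∀ α : ℝ, Irrational α → ∀ β : ℝ,
      {n : ℕ | Few A r ((n : ℝ) ^ z) n ∧ Int.fract (α * n + β) < (n : ℝ) ^ (-θ)}.Infinite) ∧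
    ∀ (K : ℕ) (κ : ℝ), 0 < κ → ∃ c δ : ℝ, 0 < c ∧ 0 < δ ∧ ∀ᶠ X : ℕ in atTop,
      ∀ (α β : ℝ) (a : ℤ) (q : ℕ), 2 ≤ q → IsCoprime a (q : ℤ) → |α - a / q| ≤ 1 / (q : ℝ) ^ 2 →
        (X : ℝ) ^ (θ + κ) ≤ q → (q : ℝ) ≤ (X : ℝ) ^ (1 - θ - κ) →
        ∀ Ω : ℕ → Finset ℕ, (∀ p : ℕ, p.Prime → (Ω p).card ≤ K) →
          c * ((X : ℝ) ^ (1 - θ) * ∏ p ∈ (Icc 1 X).filter Nat.Prime, (1 - (omega A Ω p : ℝ) / p)) ≤
            (((Icc 1 X).filter (fun n : ℕ => Int.fract (α * n + β) < (X : ℝ) ^ (-θ) ∧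
              Few A r ((X : ℝ) ^ z) n ∧ ∀ p : ℕ, p.Prime → (p : ℝ) < (X : ℝ) ^ δ → n % p ∉ Ω p)).card : ℝ) := by
  constructor
  · intro α hα β
    exact Pool.Agent.X69.Dio.infinite A hA r t z hpar θ hθ hθt htθ α hα β
  · intro K κ hκ
    obtain ⟨υ, lam, S, g1, g2, g3, g4, g5, g6, g7, g8, g9⟩ := Pool.Agent.X69.Dio.params r t z hpar
    obtain ⟨c, δ, hc, hδ, X0, HB⟩ := Pool.Agent.X69.Dio.bohr A hA K r t z υ lam S θ κ g1 g2 g3 hθ htθ hθt
      g4 g5 g6 g7 g8 g9 hκ
    refine ⟨c, δ, hc, hδ, eventually_atTop.2 ⟨X0, fun X hX α β a q hq2 hcop happ hq1 hq3 Ω hK => ?_⟩⟩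
    have key := HB X hX α β a q ⟨hq2, hcop, happ⟩ hq1 hq3 Ω hK
    have e1 : ∏ p ∈ (Icc 1 X).filter Nat.Prime, (1 - (omega A Ω p : ℝ) / p) =
        ∏ p ∈ (Icc 1 X).filter Nat.Prime,
          (1 - ((Pool.Agent.X69.NSQ.Cl A Ω ((X : ℝ) + 1) p).card : ℝ) / p) := by
      apply prod_congr rfl
      intro p hp
      rw [mem_filter, mem_Icc] at hp
      have e2 : omega A Ω p = (Pool.Agent.X69.NSQ.Cl A Ω ((X : ℝ) + 1) p).card := by
        unfold omega
        congr 1
        ext u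
        rw [Pool.Agent.X69.NSQ.mem_Cl, mem_filter, mem_range]
        apply and_congr_right
        intro hu
        unfold Pool.Agent.X69.NSQ.Bad
        apply or_congr_right
        rw [Nat.mod_eq_of_lt hu]
        have h5 : (p : ℝ) < (X : ℝ) + 1 := by
          have : (p : ℝ) ≤ X := by exact_mod_cast hp.1.2
          linarith
        exact ⟨fun h => ⟨h5, h⟩, fun h => h.2⟩
      rw [e2]
    rw [e1]
    refine key.trans (le_of_eq ?_)
    unfold Pool.Agent.X69.NSQ.Good Pool.Agent.X69.Dio.JB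
    congr 2
    ext n
    simp only [mem_filter, Few]
    tauto

end Pool.Agent.Results.MP_f1a94e_nt.DiophantineApproximation
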