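import Pool.Agent.X69.NSQ.Gold

/-!
# Integers `n` with `n^2+1` almost prime: progressions, removed residue classes, and Goldbach's problem

For `n^2+a` with at most 3 (4, 5) prime factors: lower bounds of the right order of magnitude for `n` in progressions
with a large difference, in short intervals, and outside of arbitrary further residue classes (at most `K` for every
prime, for instance the zeros of a second polynomial); and the binary Goldbach problem for the integers `x` such that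
`x^2+1` is almost prime.

Method: the weighted sieve of the starting library (`Pool.Agent.Y882.KW.core4`), applied to the numbers `n^2+a`
multiplied by the small primes `p` for which `n` is in one of the removed classes modulo `p`.
-/

set_option autoImplicit false

namespace Pool.Agent.Results.MP_f1a94e_nt.GoldbachAndSiftedProgressions

open Finset Filter

/-- `n^2+a` has at most `r` prime factors (counted with multiplicity), all of them at least `w` -/
def Few (a : ℤ) (r : ℕ) (w : ℝ) (n : ℕ) : Prop :=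
  ((n : ℤ) ^ 2 + a).natAbs.primeFactorsList.length ≤ r ∧
    ∀ p : ℕ, p.Prime → (p : ℤ) ∣ (n : ℤ) ^ 2 + a → w ≤ p

open Classical in
/-- the number of the residues `u` modulo `p` such that `p` divides `u^2+a` or `u` is in `Ω p` -/
noncomputable def omega (a : ℤ) (Ω : ℕ → Finset ℕ) (p : ℕ) : ℕ :=
  ((range p).filter (fun u : ℕ => (p : ℤ) ∣ (u : ℤ) ^ 2 + a ∨ u ∈ Ω p)).card

open Classical in
/-- Let `r = 5`, `1/2 ≤ t`, `z = 2t/5`, or `r = 4`, `269/500 ≤ t`, `z = t/4`, or `r = 3`, `29/40 ≤ t`,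
`z = t/4`, and let `t < h ≤ 1`.

(1) Let `-a` be no perfect square and `K` a natural number. There are `c, δ > 0` such that for all large `X`, all
`b`, `q ≥ 1`, `H` with `H ≥ X^h`, `b + qH ≤ X` and all sets `Ω p` of at most `K` residues for every prime `p`, where
for the primes `p ∣ q` neither `p ∣ b^2+a` nor `b mod p ∈ Ω p`: for at least `c H ∏_{p ≤ X, p ∤ q} (1 - ω(p)/p)` of the
`n = b + qj`, `1 ≤ j ≤ H`, the integer `n^2+a` has at most `r` prime factors, all of them at least `X^z`, and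
`n mod p` is not in `Ω p` for any prime `p < X^δ`.

(2) There are `R` and `c > 0` such that for all large `N` and every interval `(M, M + H]` in `[0, N]` with `H ≥ N^h` there
are at least `c H/(log N)^2` representations `N = x + y` with `x` in `(M, M + H]` such that `x^2+1` has at most `r`
prime factors, all of them at least `N^z`, and `y^2+1` has at most `R` prime factors. -/
theorem result (r : ℕ) (t z : ℝ)
    (hpar : (r = 5 ∧ 1 / 2 ≤ t ∧ z = 2 / 5 * t) ∨ (r = 4 ∧ 269 / 500 ≤ t ∧ z = t / 4) ∨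
      (r = 3 ∧ 29 / 40 ≤ t ∧ z = t / 4)) (h : ℝ) (ht : t < h) (h1 : h ≤ 1) :
    (∀ a : ℤ, ¬ IsSquare (-a) → ∀ K : ℕ, ∃ c δ : ℝ, 0 < c ∧ 0 < δ ∧ ∀ᶠ X : ℕ in atTop,
      ∀ b q H : ℕ, 0 < q → (X : ℝ) ^ h ≤ H → b + q * H ≤ X → ∀ Ω : ℕ → Finset ℕ,
        (∀ p : ℕ, p.Prime → (Ω p).card ≤ K) →
        (∀ p : ℕ, p.Prime → p ∣ q → ¬ (p : ℤ) ∣ (b : ℤ) ^ 2 + a ∧ b % p ∉ Ω p) →
        c * (H * ∏ p ∈ (Icc 1 X).filter (fun p : ℕ => p.Prime ∧ ¬ p ∣ q), (1 - (omega a Ω p : ℝ) / p)) ≤
          (((Icc 1 H).filter (fun j : ℕ => Few a r ((X : ℝ) ^ z) (b + q * j) ∧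
            ∀ p : ℕ, p.Prime → (p : ℝ) < (X : ℝ) ^ δ → (b + q * j) % p ∉ Ω p)).card : ℝ)) ∧
    ∃ (R : ℕ) (c : ℝ), 0 < c ∧ ∀ᶠ N : ℕ in atTop, ∀ M H : ℕ, (N : ℝ) ^ h ≤ H → M + H ≤ N →
      c * H / Real.log N ^ 2 ≤ (((Ioc M (M + H)).filter (fun x : ℕ => Few 1 r ((N : ℝ) ^ z) x ∧
        ((N - x) ^ 2 + 1).primeFactorsList.length ≤ R)).card : ℝ) := by
  obtain ⟨υ, lam, S, g1, g2, g3, g4, g5, g6, g7, g8, g9⟩ : ∃ υ lam S : ℝ, 0 < z ∧ 2 * z < t ∧ t ≤ 4 * z ∧
      z ≤ υ ∧ υ < t ∧ 0 < lam ∧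
      (∫ x in z..υ, (lam - lam / υ * x) / (t - x) / x < Real.log (t / z - 1) / t) ∧
      1 / lam + S / υ ≤ r + 1 ∧ 2 < S := by
    rcases hpar with ⟨rfl, ht0, rfl⟩ | ⟨rfl, ht0, rfl⟩ | ⟨rfl, ht0, rfl⟩
    · refine ⟨9 / 10 * t, 20 / 31, 1001 / 500, by linarith, by linarith, by linarith, by linarith,
        by linarith, by norm_num, ?_, ?_, by norm_num⟩
      · exact Pool.Agent.Y882.KW.cond_B t (20 / 31) (by linarith) (by norm_num) (by norm_num)
      · have h3 : (1001 / 500 : ℝ) / (9 / 10 * t) ≤ 4449 / 1000 := by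
          rw [div_le_iff₀ (by linarith)]
          linarith
        push_cast
        norm_num at h3 ⊢
        linarith
    · refine ⟨24 / 25 * t, 8 / 9, 2001 / 1000, by linarith, by linarith, by linarith, by linarith,
        by linarith, by norm_num, ?_, ?_, by norm_num⟩
      · exact Pool.Agent.Y882.KW.cond_A t (8 / 9) (by linarith) (by norm_num) (by norm_num)
      · have h3 : (2001 / 1000 : ℝ) / (24 / 25 * t) ≤ 3875 / 1000 := by
          rw [div_le_iff₀ (by linarith)]
          linarith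
        push_cast
        norm_num at h3 ⊢
        linarith
    · refine ⟨24 / 25 * t, 8 / 9, 2001 / 1000, by linarith, by linarith, by linarith, by linarith,
        by linarith, by norm_num, ?_, ?_, by norm_num⟩
      · exact Pool.Agent.Y882.KW.cond_A t (8 / 9) (by linarith) (by norm_num) (by norm_num)
      · have h3 : (2001 / 1000 : ℝ) / (24 / 25 * t) ≤ 2875 / 1000 := by
          rw [div_le_iff₀ (by linarith)]
          linarith
        push_cast
        norm_num at h3 ⊢
        linarith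
  constructor
  · intro a ha K
    obtain ⟨c, δ, hc, hδ, X0, HA⟩ := Pool.Agent.X69.NSQ.ap a ha K r t z υ lam S h g1 g2 g3 ht h1 g4 g5 g6
      g7 g8 g9
    refine ⟨c, δ, hc, hδ, eventually_atTop.2 ⟨max X0 1, fun X hX b q H hq hH hbq Ω hK hb => ?_⟩⟩
    have key := HA X ((le_max_left _ _).trans hX) b q H hq hH hbq Ω hK hb
    have e1 : ∏ p ∈ (Icc 1 X).filter (fun p : ℕ => p.Prime ∧ ¬ p ∣ q), (1 - (omega a Ω p : ℝ) / p) =
        ∏ p ∈ (Icc 1 X).filter (fun p : ℕ => p.Prime ∧ ¬ p ∣ q),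
          (1 - ((Pool.Agent.X69.NSQ.Cl a Ω ((X : ℝ) + 1) p).card : ℝ) / p) := by
      apply prod_congr rfl
      intro p hp
      rw [mem_filter, mem_Icc] at hp
      have e2 : omega a Ω p = (Pool.Agent.X69.NSQ.Cl a Ω ((X : ℝ) + 1) p).card := by
        unfold omega
        congr 1
        ext u
        rw [Pool.Agent.X69.NSQ.mem_Cl, mem_filter, mem_range]
        apply and_congr_right
        intro hu
        unfold Pool.Agent.X69.NSQ.Bad
        apply or_congr_right
        rw [Nat.mod_eq_of_lt hu]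
        have h5 : (p : ℝ) < (X : ℝ) + 1 := by
          have : (p : ℝ) ≤ X := by exact_mod_cast hp.1.2
          linarith
        exact ⟨fun h => ⟨h5, h⟩, fun h => h.2⟩
      rw [e2]
    rw [e1]
    refine key.trans (le_of_eq ?_)
    unfold Pool.Agent.X69.NSQ.Good
    rw [Pool.Agent.X69.NSQ.card_Jp_filter b q H hq]
    congr 2
    ext j
    rw [mem_filter, mem_filter]
    exact Iff.rfl
  · obtain ⟨R, c, hc, N0, HG⟩ := Pool.Agent.X69.NSQ.gold r t z υ lam S h g1 g2 g3 ht h1 g4 g5 g6 g7 g8 g9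
    refine ⟨R, c, hc, eventually_atTop.2 ⟨N0, fun N hN M H hH hMN => ?_⟩⟩
    refine (HG N hN M H hH hMN).trans (le_of_eq ?_)
    congr 2
    apply filter_congr
    intro x _
    have hcast : (x : ℤ) ^ 2 + 1 = ((x ^ 2 + 1 : ℕ) : ℤ) := by push_cast; ring
    unfold Few
    rw [hcast, Int.natAbs_natCast]
    simp only [Int.natCast_dvd_natCast]

end Pool.Agent.Results.MP_f1a94e_nt.GoldbachAndSiftedProgressions
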