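import Pool.Agent.X32.Uni.UGold

/-!
# Every large even `N` is `m + n`, `m` prime, `n = P_2`, with `m ^ 2 + 1`, `n ^ 2 + 1`, `m ^ 2 + n ^ 2 + 1`, ... all
bounded multiples of almost primes

Let `k` and `E` be given. There are `z`, `G`, `t` and `κ > 0` such that for all `K`, `θ > 0` and all large `N` the
following holds for ALL sets `S` of at most `k` quadruples `q = (a, b, c, h)` of integers with `|a|, |b|, |c| ≤ E`,
`a - b + c ≠ 0`, `|h| ≤ K N ^ 2` and all `T ⊆ S` with no local obstruction for the product of `x (N - x)` and of the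
`q(x, N - x)`, `q ∈ T`, where `q(x, y) = a x ^ 2 + b x y + c y ^ 2 + h` (if `N` is EVEN, there is none for `T = ∅`;
nothing is required for `S \ T`): every interval `(A, B]` with `B ≤ N`, `B - A ≥ θ N` contains at least
`κ (B - A) V` PRIMES `m` such that, with `n = N - m`,
* `n` is a product of at most two primes `> N ^ (1/9)`,
* `q(m, n)` is, for every `q ∈ T`, a product of at most `2 t` primes `> N ^ (1/t)`,
* `q(m, n)` is, for every `q ∈ S`, the product of an integer `1 ≤ g ≤ G` composed of primes `≤ z` and of at most `2 t`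
  primes `> N ^ (1/t)`.
Here `V` is the product of `1 - ω(p) / p` over the primes `z < p ≤ N`, `ω(p)` the number of the zeros modulo `p` of
`x (N - x) ∏_{q ∈ S} q(x, N - x)`, and `V ≥ κ / (log N) ^ (2 k + 2)`: the conjectured order of magnitude for all the
numbers to be (bounded multiples of) primes. For every colouring all but `δ (B - A) V` of these `m` are covered by
pairwise disjoint monochromatic progressions of `s` such `m` with differences `≤ (log N) ^ c`.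

For instance `S` may contain the `(1, 0, 0, h)` and `(0, 0, 1, h)` for `|h| ≤ L`: all `m ^ 2 + h` and all `n ^ 2 + h`
are bounded multiples of almost primes. (An exact statement for `m ^ 2 + 1` and `n ^ 2 + 1` is impossible for some even
`N`, e.g. modulo 5.)
-/

set_option autoImplicit false

namespace Pool.Agent.Results.MP_f1a94e_nt.GoldbachQuadraticForms

open Finset

/-- `|v| > 1`, and `|v|` is a product of at most `r` primes, all of them larger than `y` -/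
def Almost (r : ℕ) (y : ℝ) (v : ℤ) : Prop :=
  1 < |v| ∧ v.natAbs.primeFactorsList.length ≤ r ∧ ∀ q : ℕ, q.Prime → (q : ℤ) ∣ v → y < q

/-- `v = g w`, where `1 ≤ g ≤ G` has only prime factors `≤ z` and `|w| > 1` is a product of at most `r` primes `> y` -/
def Near (z G r : ℕ) (y : ℝ) (v : ℤ) : Prop :=
  ∃ (g : ℕ) (w : ℤ), v = g * w ∧ 1 ≤ g ∧ g ≤ G ∧ (∀ p : ℕ, p.Prime → p ∣ g → p ≤ z) ∧ Almost r y w

/-- the value `a x ^ 2 + b x y + c y ^ 2 + h`, `q = (a, b, c, h)` -/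
def val (q : ℤ × ℤ × ℤ × ℤ) (x y : ℤ) : ℤ := q.1 * x ^ 2 + q.2.1 * (x * y) + q.2.2.1 * y ^ 2 + q.2.2.2

/-- `ω(p)`: the number of the zeros of `x (N - x) ∏ q(x, N - x)` modulo `p` -/
def omega (N : ℕ) (S : Finset (ℤ × ℤ × ℤ × ℤ)) (p : ℕ) : ℕ :=
  ((range p).filter fun x : ℕ => (p : ℤ) ∣ (x : ℤ) * ((N : ℤ) - x) * ∏ q ∈ S, val q x ((N : ℤ) - x)).card

/-- the product of `1 - ω(p) / p` over the primes `z < p ≤ N` -/
noncomputable def V (N : ℕ) (S : Finset (ℤ × ℤ × ℤ × ℤ)) (z : ℕ) : ℝ :=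
  ∏ p ∈ (Ioc z N).filter Nat.Prime, (1 - (omega N S p : ℝ) / p)

open Classical in
/-- the primes `m` of `(A, B]` described above -/
noncomputable def Good (N : ℕ) (S T : Finset (ℤ × ℤ × ℤ × ℤ)) (z G t A B : ℕ) : Finset ℕ :=
  (Ioc A B).filter (fun m : ℕ => m.Prime ∧ Almost 2 ((N : ℝ) ^ (1 / 9 : ℝ)) ((N : ℤ) - m) ∧
    Almost t ((N : ℝ) ^ (1 / (t : ℝ))) (m : ℤ) ∧ Almost t ((N : ℝ) ^ (1 / (t : ℝ))) ((N : ℤ) - m) ∧
    (∀ q ∈ T, Almost (2 * t) ((N : ℝ) ^ (1 / (t : ℝ))) (val q m ((N : ℤ) - m))) ∧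
    ∀ q ∈ S, Near z G (2 * t) ((N : ℝ) ^ (1 / (t : ℝ))) (val q m ((N : ℤ) - m)))

/-- no prime divides all the values of `x (N - x) ∏ q(x, N - x)` -/
def Admissible (N : ℕ) (T : Finset (ℤ × ℤ × ℤ × ℤ)) : Prop :=
  ∀ p : ℕ, p.Prime → ∃ x : ℤ, ¬ (p : ℤ) ∣ x * ((N : ℤ) - x) * ∏ q ∈ T, val q x ((N : ℤ) - x)

/-- the terms `a, a + b, ..., a + (s - 1) b` of the progression `τ = (a, b)` -/
def terms (s : ℕ) (τ : ℕ × ℕ) : Finset ℕ := (range s).image (fun i => τ.1 + i * τ.2)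

theorem result : (∀ N : ℕ, Even N → Admissible N ∅) ∧
    ∀ k E : ℕ, ∃ z G t : ℕ, 1 ≤ t ∧ ∃ κ : ℝ, 0 < κ ∧ ∀ (K s r : ℕ) (θ δ : ℝ),
    1 ≤ s → 0 < θ → 0 < δ → ∃ c N₀ : ℕ, ∀ N : ℕ, N₀ ≤ N → ∀ (S T : Finset (ℤ × ℤ × ℤ × ℤ)),
      T ⊆ S → S.card ≤ k → (∀ q ∈ S, |q.1| ≤ E ∧ |q.2.1| ≤ E ∧ |q.2.2.1| ≤ E ∧ q.1 - q.2.1 + q.2.2.1 ≠ 0 ∧
        |q.2.2.2| ≤ K * (N : ℤ) ^ 2) → Admissible N T →
      κ / Real.log N ^ (2 * k + 2) ≤ V N S z ∧
      ∀ A B : ℕ, B ≤ N → θ * N ≤ (B : ℝ) - A →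
        κ * ((B : ℝ) - A) * V N S z ≤ ((Good N S T z G t A B).card : ℝ) ∧
        ∀ χ : ℕ → Fin r, ∃ P : Finset (ℕ × ℕ),
          (∀ τ ∈ P, 1 ≤ τ.2 ∧ (τ.2 : ℝ) ≤ Real.log N ^ c ∧
            ∀ l < s, τ.1 + l * τ.2 ∈ Good N S T z G t A B ∧ χ (τ.1 + l * τ.2) = χ τ.1) ∧
          (P : Set (ℕ × ℕ)).PairwiseDisjoint (terms s) ∧
          (((Good N S T z G t A B \ P.biUnion (terms s)).card : ℕ) : ℝ) ≤ δ * ((B : ℝ) - A) * V N S z :=
  ⟨Pool.Agent.X32.Uni.admG_even, fun k E => Pool.Agent.X32.Uni.goldQ k E⟩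

end Pool.Agent.Results.MP_f1a94e_nt.GoldbachQuadraticForms
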