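import Pool.Agent.X69.NSQ.Pat

/-!
# Coloured patterns of integers `n` for which `n^2+1` has at most 3 (4, 5) prime factors, in very short intervals

The numbers of the prime factors are explicit and do not depend on the pattern; the intervals have length
`X^h` with any `h > 0`, all positions but a few are allowed, and the differences of the patterns may be as small as a
power of `log X`. For each pattern which is realised the number of its occurrences has the order of magnitude which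
Hardy and Littlewood predict for primes.

Method: a weighted sieve in short intervals with few exceptions (`Pool.Agent.Y882`), and a relative
multidimensional Szemerédi theorem in windows with an enveloping sieve (`Pool.Agent.X26.GP`, `Pool.Agent.Y843`).
-/

set_option autoImplicit false

namespace Pool.Agent.Results.MP_f1a94e_nt.PatternsFewPrimeFactors

open Finset Filter

/-- `n^2+1` is a product of at most `r` primes, all of them at least `w` -/
def Few (r : ℕ) (w : ℝ) (n : ℕ) : Prop :=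
  (n ^ 2 + 1).primeFactorsList.length ≤ r ∧ ∀ p : ℕ, p.Prime → p ∣ n ^ 2 + 1 → w ≤ p

/-- the integer `g_1 d_1 + … + g_m d_m` -/
def dot {m : ℕ} (g d : Fin m → ℕ) : ℕ := ∑ i, g i * d i

/-- the number of the residues `u` modulo `q` for which `q` divides some `(u + g·d)^2+1`, `g ∈ F` -/
def omega {m : ℕ} (d : Fin m → ℕ) (F : Finset (Fin m → ℕ)) (q : ℕ) : ℕ :=
  ((range q).filter (fun u : ℕ => ∃ g ∈ F, q ∣ (u + dot g d) ^ 2 + 1)).card

/-- the product of `1 - ω(q)/q` over the primes `q ≤ Y` -/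
noncomputable def prod (w : ℕ → ℕ) (Y : ℕ) : ℝ :=
  ∏ q ∈ (Icc 1 Y).filter Nat.Prime, (1 - (w q : ℝ) / q)

open Classical in
/-- the number of the `n` in `(N, N + Y]` such that for all `g ∈ F` the integer `n + g·d` is in `(N, N + Y]` and has
the colour `i`, and `(n + g·d)^2+1` is a product of at most `r` primes, all at least `w` -/
noncomputable def count {l m : ℕ} (r : ℕ) (w : ℝ) (N Y : ℕ) (col : ℕ → Fin (l + 1)) (i : Fin (l + 1))
    (d : Fin m → ℕ) (F : Finset (Fin m → ℕ)) : ℕ :=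
  ((Ioc N (N + Y)).filter (fun n : ℕ => ∀ g ∈ F, n + dot g d ≤ N + Y ∧ Few r w (n + dot g d) ∧
    col (n + dot g d) = i)).card

/-- Let `r = 5`, `1/2 ≤ t < 1`, `z = 2t/5`, or `r = 4`, `269/500 ≤ t < 1`, `z = t/4`, or `r = 3`,
`29/40 ≤ t < 1`, `z = t/4`, and let `0 < h ≤ 1`, `ε > 0`. There are sets `Bad X` of at most `X^(2t-h+ε)` of
the positions `N ≤ X` (for large `X`) with the following property.

For all `m`, `k` and every number of colours there are `c > 0` and `B` such that for all large `X`, all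
`N ≤ X` not in `Bad X` and every colouring of the integers there is a colour `i` such that for every `D` with
`(log X)^B ≤ D ≤ X^h`, for at least `c D^m` vectors `d ∈ {1, …, D}^m` and for ALL sets
`F ⊆ {0, …, k - 1}^m` with `0 ∈ F`: the integers `g·d`, `g ∈ F`, are distinct, the product of the
polynomials `(x + g·d)^2+1` has no fixed prime divisor, and for at least `c X^h ∏_{q ≤ X^h} (1 - ω(q)/q)`
integers `n` all the `n + g·d`, `g ∈ F`, are in `(N, N + X^h]`, have the colour `i`, and all the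
`(n + g·d)^2+1` are products of at most `r` primes, all of them at least `X^z`. -/
theorem result (r : ℕ) (t z : ℝ)
    (hpar : (r = 5 ∧ 1 / 2 ≤ t ∧ z = 2 / 5 * t) ∨ (r = 4 ∧ 269 / 500 ≤ t ∧ z = t / 4) ∨
      (r = 3 ∧ 29 / 40 ≤ t ∧ z = t / 4)) (ht : t < 1) (h ε : ℝ) (hh : 0 < h) (h1 : h ≤ 1)
    (hε : 0 < ε) :
    ∃ Bad : ℕ → Finset ℕ,
      (∀ᶠ X : ℕ in atTop, Bad X ⊆ Icc 1 X ∧ ((Bad X).card : ℝ) ≤ (X : ℝ) ^ (2 * t - h + ε)) ∧
      ∀ m k l : ℕ, ∃ (c : ℝ) (B : ℕ), 0 < c ∧ ∀ᶠ X : ℕ in atTop, ∀ N ∈ Icc 1 X, N ∉ Bad X →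
        ∀ col : ℕ → Fin (l + 1), ∃ i, ∀ D : ℕ, Real.log X ^ B ≤ D → (D : ℝ) ≤ (X : ℝ) ^ h →
        ∃ G ⊆ Fintype.piFinset (fun _ : Fin m => Icc 1 D), c * (D : ℝ) ^ m ≤ (G.card : ℝ) ∧ ∀ d ∈ G,
          ∀ F : Finset (Fin m → ℕ), (∀ g ∈ F, ∀ j, g j < k) → (fun _ => 0) ∈ F →
            Set.InjOn (fun g => dot g d) F ∧ (∀ q : ℕ, q.Prime → omega d F q < q) ∧
            c * ((X : ℝ) ^ h * prod (omega d F) ⌊(X : ℝ) ^ h⌋₊) ≤
              (count r ((X : ℝ) ^ z) N ⌊(X : ℝ) ^ h⌋₊ col i d F : ℝ) := by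
  obtain ⟨δ, hδ, X₀, hfew⟩ := Pool.Agent.X69.NSQ.few r t z hpar ht h ε hh h1 hε
  refine ⟨Pool.Agent.X69.NSQ.Bad r z h δ, ?_, fun m k l => ?_⟩
  · filter_upwards [eventually_ge_atTop X₀] with X hX
    exact ⟨filter_subset _ _, hfew X hX⟩
  · obtain ⟨c, hc, B, X₁, hp⟩ := Pool.Agent.X69.NSQ.patterns r z h δ
      (Pool.Agent.X69.NSQ.Par.z_pos hpar) hh h1 hδ m k l
    refine ⟨c, B, hc, ?_⟩
    filter_upwards [eventually_ge_atTop X₁] with X hX N hN hNB col
    obtain ⟨i, hi⟩ := hp X hX N hN hNB col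
    exact ⟨i, hi⟩

end Pool.Agent.Results.MP_f1a94e_nt.PatternsFewPrimeFactors
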